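import Mathlib
import Pool.Agent.Helper40.CX.BC.Field
import Pool.Agent.Helper40.CX.H21TO.Defs3

/-!
# Voisin's property for the nontrivial characters of an automorphism

`HasVoisinChi O M s m`: for the automorphism `s` of order dividing `m` of the `O`-algebra `M` and
for all projective models `X` of `M` over algebraically closed extensions `Ω` of `O` on which `s`
acts by a linear map of the coordinates.
-/

set_option autoImplicit false

namespace Pool.Agent.Helper9.CHI

open CX CX.VC CX.BC CX.Pool.Agent.Helper21.TO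

/-- `r` is the map of the points which is given by the matrix `g`: the homogeneous coordinates of
`r p` are, up to a factor, `g` times the homogeneous coordinates of `p`. -/
def IsLin {Ω : Type} [Field Ω] {N : ℕ} {I : Set (MvPolynomial (Fin N) Ω)}
    (g : Matrix (Fin N) (Fin N) Ω) (r : PPt Ω Ω I → PPt Ω Ω I) : Prop :=
  ∀ p, ∃ c : Ω, c ≠ 0 ∧ ∀ j, c * (r p).1.rep j = ∑ l, g j l * p.1.rep l

/-- The zero-cycle `∑ (a' × b' - b' × a')` on `X × X`, the sum over `j < m`, where
`a' = r ^ j (a - r a)` and `b' = r ^ (m - j) b`. If `r ^ m = 1`, and `a`, `b` are multiplied by the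
roots of unity `χ`, `χ'`, then it is `m (1 - χ) (a × b - b × a)` for `χ = χ'`, and `0` for
`χ ≠ χ'`. -/
noncomputable def chiCycle {k : Type} [Field k] {X : Variety k} (r : X.Pt → X.Pt) (m : ℕ)
    (a b : X.Cycles) : (X.pow 2).Cycles :=
  ∑ j ∈ Finset.range m,
    (extProd ![(a - a.mapDomain r).mapDomain r^[j], b.mapDomain r^[m - j]] -
      extProd ![b.mapDomain r^[m - j], (a - a.mapDomain r).mapDomain r^[j]])

/-- For each algebraically closed extension `Ω` of `O` and each projective variety `X` over `Ω` whose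
generic point has its homogeneous coordinates `ξ` in the field `F` obtained from `M` by the extension
of the constants from `O` to `Ω`, in such a way that the automorphism `s` of `M` acts on `ξ` by a
matrix `g`: for all zero-cycles `a`, `b` on `X` a positive multiple of the cycle `chiCycle r m a b`,
where `r` is the automorphism of `X` given by `g`, is rationally equivalent to zero. -/
def HasVoisinChi (O M : Type) [Field O] [Field M] [Algebra O M] (s : M ≃ₐ[O] M) (m : ℕ) : Prop :=
  ∀ (Ω : Type) [Field Ω] [Algebra O Ω] [IsAlgClosed Ω] [Good Ω],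
    ∃ (F : Type) (_ : Field F) (_ : Algebra Ω F) (i : M →+* F) (σ : F ≃ₐ[Ω] F),
      IsConst O Ω M F i ∧ (∀ z, σ (i z) = i (s z)) ∧
      ∀ (N : ℕ) (ξ : Fin N → F) (g : Matrix (Fin N) (Fin N) Ω), ξ ≠ 0 →
        (∀ j, σ (ξ j) = ∑ l, algebraMap Ω F (g j l) * ξ l) →
        ∀ r : (proj Ω (van Ω ξ)).Pt → (proj Ω (van Ω ξ)).Pt, IsLin g r →
          ∀ a b : (proj Ω (van Ω ξ)).Cycles,
            ∃ n : ℕ, 0 < n ∧ n • chiCycle r m a b ∈ ((proj Ω (van Ω ξ)).pow 2).Rat

end Pool.Agent.Helper9.CHI
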