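import Mathlib
import Pool.Agent.Helper9.CHI.Defs
import Pool.Agent.Helper40.CX.CHI.Defs
import Pool.Agent.Helper40.CX.H83VH.Decomp
import Pool.Agent.Helper40.CX.Sum2

/-!
# From functions to cycles

If an automorphism `r` of finite order `m` of `X` satisfies `VoisinChi X r χ 2` for all characters
`χ ≠ 1`, then a positive multiple of each cycle `chiCycle r m a b` is rationally equivalent to zero.
-/

set_option autoImplicit false
set_option linter.unusedSectionVars false

namespace Pool.Agent.Helper9.CHI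

open CX CX.VC CX.VF CX.VH CX.BC CX.Pool.Agent.Helper21.TO Function

section ext

variable {k : Type} [Field k] {X : Variety k}

theorem lin_ext (Ψ : (X.pow 2).Pt → ℂ) (a b : X.Cycles) :
    Finsupp.linearCombination ℤ Ψ (extProd ![a, b]) =
      Finsupp.linearCombination ℤ (fun p => Finsupp.linearCombination ℤ (fun q => Ψ ![p, q]) b) a := by
  induction a using Finsupp.induction_linear with
  | zero =>
    rw [map_zero]
    have h : extM X.Pt 2 ![(0 : X.Cycles), b] = 0 :=
      (extM X.Pt 2).map_coord_zero 0 (by simp)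
    change Finsupp.linearCombination ℤ Ψ (extM X.Pt 2 ![(0 : X.Cycles), b]) = 0
    rw [h, map_zero]
  | add a a' ha ha' =>
    have h : extM X.Pt 2 ![a + a', b] = extM X.Pt 2 ![a, b] + extM X.Pt 2 ![a', b] := by
      have := (extM X.Pt 2).map_update_add ![a, b] 0 a a'
      have e : ∀ x : X.Cycles, update ![a, b] 0 x = ![x, b] := by
        intro x; funext i; fin_cases i <;> simp
      rwa [e, e, e] at this
    rw [map_add, ← ha, ← ha', ← map_add]
    change Finsupp.linearCombination ℤ Ψ (extM X.Pt 2 ![a + a', b]) = _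
    rw [h]
    rfl
  | single p n =>
    rw [Finsupp.linearCombination_single]
    have h : extM X.Pt 2 ![Finsupp.single p n, b] = n • extM X.Pt 2 ![Finsupp.single p 1, b] := by
      have := (extM X.Pt 2).map_update_smul ![Finsupp.single p 1, b] 0 n (Finsupp.single p 1)
      have e : ∀ x : X.Cycles, update ![Finsupp.single p (1 : ℤ), b] 0 x = ![x, b] := by
        intro x; funext i; fin_cases i <;> simp
      rwa [e, e, Finsupp.smul_single, smul_eq_mul, mul_one] at this
    change Finsupp.linearCombination ℤ Ψ (extM X.Pt 2 ![Finsupp.single p n, b]) = _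
    rw [h, map_smul]
    congr 1
    induction b using Finsupp.induction_linear with
    | zero =>
      rw [map_zero]
      have h : extM X.Pt 2 ![Finsupp.single p 1, (0 : X.Cycles)] = 0 :=
        (extM X.Pt 2).map_coord_zero 1 (by simp)
      rw [h, map_zero]
    | add b b' hb hb' =>
      have h : extM X.Pt 2 ![Finsupp.single p 1, b + b'] =
          extM X.Pt 2 ![Finsupp.single p 1, b] + extM X.Pt 2 ![Finsupp.single p 1, b'] := by
        have := (extM X.Pt 2).map_update_add ![Finsupp.single p 1, b] 1 b b'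
        have e : ∀ x : X.Cycles, update ![Finsupp.single p (1 : ℤ), b] 1 x =
            ![Finsupp.single p 1, x] := by
          intro x; funext i; fin_cases i <;> simp
        rwa [e, e, e] at this
      rw [h, map_add, map_add]
      have hh : ∀ c : X.Cycles, extM X.Pt 2 ![Finsupp.single p n, c] =
          n • extM X.Pt 2 ![Finsupp.single p 1, c] := by
        intro c
        have := (extM X.Pt 2).map_update_smul ![Finsupp.single p 1, c] 0 n (Finsupp.single p 1)
        have e : ∀ x : X.Cycles, update ![Finsupp.single p (1 : ℤ), c] 0 x = ![x, c] := by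
          intro x; funext i; fin_cases i <;> simp
        rwa [e, e, Finsupp.smul_single, smul_eq_mul, mul_one] at this
      rw [hb (hh b), hb' (hh b')]
    | single q l =>
      rw [Finsupp.linearCombination_single]
      have h : extM X.Pt 2 ![Finsupp.single p 1, Finsupp.single q l] =
          l • extM X.Pt 2 ![Finsupp.single p 1, Finsupp.single q 1] := by
        have := (extM X.Pt 2).map_update_smul ![Finsupp.single p 1, Finsupp.single q 1] 1 l
          (Finsupp.single q 1)
        have e : ∀ x : X.Cycles, update ![Finsupp.single p (1 : ℤ), Finsupp.single q 1] 1 x =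
            ![Finsupp.single p 1, x] := by
          intro x; funext i; fin_cases i <;> simp
        rwa [e, e, Finsupp.smul_single, smul_eq_mul, mul_one] at this
      rw [h, map_smul]
      congr 1
      have h2 : extM X.Pt 2 ![Finsupp.single p 1, Finsupp.single q 1] =
          Finsupp.single ![p, q] 1 := by
        rw [extM_apply]
        have e : (![Finsupp.single p 1, Finsupp.single q 1] : Fin 2 → X.Cycles) =
            fun i => Finsupp.single (![p, q] i) (1 : ℤ) := by
          funext i; fin_cases i <;> rfl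
        rw [e, ext'_single]
      rw [h2, Finsupp.linearCombination_single, one_smul]

theorem lin_comm (Ψ : X.Pt → X.Pt → ℂ) (a b : X.Cycles) :
    Finsupp.linearCombination ℤ (fun p => Finsupp.linearCombination ℤ (fun q => Ψ p q) b) a =
      Finsupp.linearCombination ℤ (fun q => Finsupp.linearCombination ℤ (fun p => Ψ p q) a) b := by
  simp only [Finsupp.linearCombination_apply, Finsupp.sum, Finset.smul_sum]
  rw [Finset.sum_comm]
  refine Finset.sum_congr rfl fun q _ => Finset.sum_congr rfl fun p _ => ?_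
  rw [smul_comm]

theorem lin_ext' (Ψ : (X.pow 2).Pt → ℂ) (a b : X.Cycles) :
    Finsupp.linearCombination ℤ Ψ (extProd ![a, b]) =
      Finsupp.linearCombination ℤ (fun q => Finsupp.linearCombination ℤ (fun p => Ψ ![p, q]) a) b := by
  rw [lin_ext, lin_comm]

/-- A function on `X × X` which is an eigenfunction for `r` in both arguments. -/
theorem lin_iterate {r : X.Pt → X.Pt} {Ψ : (X.pow 2).Pt → ℂ} {e₀ e₁ : ℂ}
    (h₀ : ∀ p q, Ψ ![r p, q] = e₀ * Ψ ![p, q]) (h₁ : ∀ p q, Ψ ![p, r q] = e₁ * Ψ ![p, q])
    (i j : ℕ) (a b : X.Cycles) :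
    Finsupp.linearCombination ℤ Ψ (extProd ![a.mapDomain r^[i], b.mapDomain r^[j]]) =
      e₀ ^ i * e₁ ^ j * Finsupp.linearCombination ℤ Ψ (extProd ![a, b]) := by
  have h0 : ∀ i p q, Ψ ![r^[i] p, q] = e₀ ^ i * Ψ ![p, q] := by
    intro i
    induction i with
    | zero => intro p q; simp
    | succ i ih => intro p q; rw [iterate_succ_apply', h₀, ih, pow_succ']; ring
  have h1 : ∀ j p q, Ψ ![p, r^[j] q] = e₁ ^ j * Ψ ![p, q] := by
    intro j
    induction j with
    | zero => intro p q; simp
    | succ j ih => intro p q; rw [iterate_succ_apply', h₁, ih, pow_succ']; ring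
  rw [lin_ext, Finsupp.linearCombination_mapDomain]
  have e1 : ((fun p => Finsupp.linearCombination ℤ (fun q => Ψ ![p, q]) (b.mapDomain r^[j])) ∘
      r^[i]) = fun p => (e₀ ^ i * e₁ ^ j) * Finsupp.linearCombination ℤ (fun q => Ψ ![p, q]) b := by
    funext p
    rw [comp_apply, Finsupp.linearCombination_mapDomain]
    have e2 : ((fun q => Ψ ![r^[i] p, q]) ∘ r^[j]) = fun q => (e₀ ^ i * e₁ ^ j) * Ψ ![p, q] := by
      funext q
      rw [comp_apply, h1, h0]
      ring
    rw [e2, lc_smul X]
  rw [e1, lc_smul X, ← lin_ext]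

theorem lin_sub_left (Ψ : (X.pow 2).Pt → ℂ) (a a' b : X.Cycles) :
    Finsupp.linearCombination ℤ Ψ (extProd ![a - a', b]) =
      Finsupp.linearCombination ℤ Ψ (extProd ![a, b]) -
        Finsupp.linearCombination ℤ Ψ (extProd ![a', b]) := by
  rw [lin_ext, lin_ext, lin_ext, map_sub]

theorem lin_sub_right (Ψ : (X.pow 2).Pt → ℂ) (a b b' : X.Cycles) :
    Finsupp.linearCombination ℤ Ψ (extProd ![a, b - b']) =
      Finsupp.linearCombination ℤ Ψ (extProd ![a, b]) -
        Finsupp.linearCombination ℤ Ψ (extProd ![a, b']) := by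
  rw [lin_ext', lin_ext', lin_ext', map_sub]

end ext

section main

variable {k : Type} [Field k] [IsAlgClosed k] [Good k] {X : Variety k} {m : ℕ} [NeZero m]

theorem comp_equi (α : Act X m) (E : AddChar (ZMod m) ℂ) (Φ : (X.pow 2).Pt → ℂ)
    (χ : Fin 2 → ZMod m) (p : (X.pow 2).Pt) (i : Fin 2) (y : ZMod m) :
    VH.comp α E Φ χ (update p i (α.act y (p i))) = E (χ i * y) * VH.comp α E Φ χ p := by
  classical
  unfold VH.comp
  rw [mul_left_comm]
  congr 1
  rw [Finset.mul_sum, ← Equiv.sum_comp (Equiv.addRight (Pi.single i y))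
    (fun x => E (χ i * y) * (E (-pairing χ x) * Φ (TW α x p)))]
  refine Finset.sum_congr rfl fun x _ => ?_
  have h1 : TW α x (update p i (α.act y (p i))) = TW α (x + Pi.single i y) p := by
    funext l
    unfold TW
    by_cases hl : l = i
    · subst hl
      rw [update_self, ← α.add, Pi.add_apply, Pi.single_eq_same]
    · rw [update_of_ne hl, Pi.add_apply, Pi.single_eq_of_ne hl, add_zero]
  rw [Equiv.coe_addRight, h1, pairing_add, pairing_single, ← mul_assoc,
    ← AddChar.map_add_eq_mul]
  congr 2
  ring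

theorem comp_kills (α : Act X m) (E : AddChar (ZMod m) ℂ) {Φ : (X.pow 2).Pt → ℂ}
    (hΦ : Kills (X.pow 2) Φ) (χ : Fin 2 → ZMod m) : Kills (X.pow 2) (VH.comp α E Φ χ) := by
  refine Kills.smul _ (Kills.sum _ fun x _ => Kills.smul _ ?_)
  exact hΦ.comp (induced_TW α x)

/-- The sum over the powers of a root of unity. -/
theorem sum_pow_root {e : ℂ} (he : e ^ m = 1) (h1 : e ≠ 1) : ∑ j ∈ Finset.range m, e ^ j = 0 := by
  have h := geom_sum_mul e m
  rw [he, sub_self] at h
  exact (mul_eq_zero.mp h).resolve_right (sub_ne_zero.mpr h1)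

theorem chi_cycle_abs {r : X.Pt → X.Pt} (hi : Induced X X r) (hr : ∀ p, r^[m] p = p)
    (h : ∀ χ : ℂ, χ ^ m = 1 → χ ≠ 1 → CX.CHI.VoisinChi X r χ 2) (a b : X.Cycles) :
    ∃ n : ℕ, 0 < n ∧ n • chiCycle r m a b ∈ (X.pow 2).Rat := by
  refine separation (X.pow 2) _ fun Φ hΦ => ?_
  obtain ⟨E, hE⟩ := exists_full m
  set α := Act.ofIterate (m := m) r hi hr with hα
  have h1 : Φ = fun p => ∑ χ, VH.comp α E Φ χ p := by
    funext p
    rw [sum_comp_eq α hE]
  rw [h1, lc_sum (X.pow 2)]
  refine Finset.sum_eq_zero fun χ _ => ?_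
  set Ψ := VH.comp α E Φ χ with hΨ
  have hk : Kills (X.pow 2) Ψ := comp_kills α E hΦ χ
  have hact : ∀ p, α.act 1 p = r p := by
    intro p
    change r^[(1 : ZMod m).val] p = r p
    have e : (1 : ZMod m) = ((1 : ℕ) : ZMod m) := by rw [Nat.cast_one]
    rw [e, ZMod.val_natCast, iterate_mod hr]
    rfl
  have heq : ∀ (p : (X.pow 2).Pt) (i : Fin 2), Ψ (update p i (r (p i))) = E (χ i) * Ψ p := by
    intro p i
    rw [← hact, hΨ, comp_equi, mul_one]
  have hroot : ∀ i, E (χ i) ^ m = 1 := by
    intro i
    rw [← AddChar.map_nsmul_eq_pow, nsmul_eq_mul, CharP.cast_eq_zero, zero_mul,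
      AddChar.map_zero_eq_one]
  have h₀ : ∀ p q, Ψ ![r p, q] = E (χ 0) * Ψ ![p, q] := by
    intro p q
    have := heq ![p, q] 0
    have e : update ![p, q] 0 (r (![p, q] 0)) = ![r p, q] := by
      funext i; fin_cases i <;> simp
    rwa [e] at this
  have h₁ : ∀ p q, Ψ ![p, r q] = E (χ 1) * Ψ ![p, q] := by
    intro p q
    have := heq ![p, q] 1
    have e : update ![p, q] 1 (r (![p, q] 1)) = ![p, r q] := by
      funext i; fin_cases i <;> simp
    rwa [e] at this
  set A := Finsupp.linearCombination ℤ Ψ (extProd ![a, b]) with hA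
  set B := Finsupp.linearCombination ℤ Ψ (extProd ![b, a]) with hB
  have hit := lin_iterate (X := X) h₀ h₁
  have hmd : ∀ c d : X.Cycles, (c - d).mapDomain r = c.mapDomain r - d.mapDomain r := fun c d =>
    Finsupp.mapDomain_sub
  unfold chiCycle
  rw [map_sum]
  have hterm : ∀ j ∈ Finset.range m, Finsupp.linearCombination ℤ Ψ
      (extProd ![(a - a.mapDomain r).mapDomain r^[j], b.mapDomain r^[m - j]] -
        extProd ![b.mapDomain r^[m - j], (a - a.mapDomain r).mapDomain r^[j]]) =
      E (χ 0) ^ j * E (χ 1) ^ (m - j) * ((1 - E (χ 0)) * A) -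
        E (χ 0) ^ (m - j) * E (χ 1) ^ j * ((1 - E (χ 1)) * B) := by
    intro j _
    rw [map_sub, hit, hit, lin_sub_left, lin_sub_right]
    have e1 := hit 1 0 a b
    have e2 := hit 0 1 b a
    simp only [iterate_one, iterate_zero, Finsupp.mapDomain_id, pow_one, pow_zero, mul_one,
      one_mul] at e1 e2
    rw [e1, e2]
    ring
  rw [Finset.sum_congr rfl hterm]
  have hsub : ∀ (i : Fin 2) (j : ℕ), j ∈ Finset.range m →
      E (χ i) ^ (m - j) = (E (χ i))⁻¹ ^ j := by
    intro i j hj
    have hj' : j ≤ m := (Finset.mem_range.mp hj).le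
    have hne : E (χ i) ≠ 0 := by
      intro h0
      have := hroot i
      rw [h0, zero_pow (NeZero.ne m)] at this
      exact zero_ne_one this
    rw [inv_pow]
    apply eq_inv_of_mul_eq_one_left
    rw [← pow_add, Nat.sub_add_cancel hj',
      hroot]
  by_cases hχ : E (χ 0) = E (χ 1)
  · have hsum : ∀ j ∈ Finset.range m,
        E (χ 0) ^ j * E (χ 1) ^ (m - j) * ((1 - E (χ 0)) * A) -
          E (χ 0) ^ (m - j) * E (χ 1) ^ j * ((1 - E (χ 1)) * B) = (1 - E (χ 0)) * (A - B) := by
      intro j hj
      have hj' : j ≤ m := (Finset.mem_range.mp hj).le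
      have e1 : E (χ 0) ^ j * E (χ 0) ^ (m - j) = 1 := by
        rw [← pow_add, Nat.add_sub_cancel' hj', hroot]
      rw [← hχ, mul_comm (E (χ 0) ^ (m - j)), e1]
      ring
    rw [Finset.sum_congr rfl hsum, Finset.sum_const, Finset.card_range]
    by_cases h1 : E (χ 0) = 1
    · rw [h1, sub_self, zero_mul, smul_zero]
    · have hV := h (E (χ 0)) (hroot 0) h1 Ψ hk (fun p i => by
        rw [heq]
        congr 1
        fin_cases i
        · rfl
        · exact hχ.symm)
      have hAB : A - B = 0 := by
        rw [hA, hB, ← map_sub, ← sum_perm_two (fun x => extProd x), lc_alt]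
        have : alt Ψ = fun _ => 0 := by
          funext p
          unfold alt
          rw [← hV p]
          refine Finset.sum_congr rfl fun σ _ => ?_
          rw [zsmul_eq_mul]
        rw [this, Finsupp.linearCombination_apply]
        simp
      rw [hAB, mul_zero, smul_zero]
  · have hz : ∀ (x y : ℂ), x ^ m = 1 → y ^ m = 1 → x ≠ y → ∑ j ∈ Finset.range m,
        x ^ j * y⁻¹ ^ j = 0 := by
      intro x y hx hy hxy
      have hy0 : y ≠ 0 := by
        intro h0
        rw [h0, zero_pow (NeZero.ne m)] at hy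
        exact zero_ne_one hy
      have e : ∀ j, x ^ j * y⁻¹ ^ j = (x * y⁻¹) ^ j := fun j => (mul_pow x y⁻¹ j).symm
      rw [Finset.sum_congr rfl fun j _ => e j]
      refine sum_pow_root (m := m) ?_ ?_
      · rw [mul_pow, inv_pow, hx, hy, inv_one, mul_one]
      · intro h0
        apply hxy
        field_simp at h0
        exact h0
    have e1 : ∑ j ∈ Finset.range m, E (χ 0) ^ j * E (χ 1) ^ (m - j) * ((1 - E (χ 0)) * A) = 0 := by
      rw [← Finset.sum_mul]
      have : ∑ j ∈ Finset.range m, E (χ 0) ^ j * E (χ 1) ^ (m - j) = 0 := by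
        rw [← hz (E (χ 0)) (E (χ 1)) (hroot 0) (hroot 1) hχ]
        exact Finset.sum_congr rfl fun j hj => by rw [hsub 1 j hj]
      rw [this, zero_mul]
    have e2 : ∑ j ∈ Finset.range m, E (χ 0) ^ (m - j) * E (χ 1) ^ j * ((1 - E (χ 1)) * B) = 0 := by
      rw [← Finset.sum_mul]
      have : ∑ j ∈ Finset.range m, E (χ 0) ^ (m - j) * E (χ 1) ^ j = 0 := by
        rw [← hz (E (χ 1)) (E (χ 0)) (hroot 1) (hroot 0) (Ne.symm hχ)]
        exact Finset.sum_congr rfl fun j hj => by rw [hsub 0 j hj, mul_comm]
      rw [this, zero_mul]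
    rw [Finset.sum_sub_distrib, e1, e2, sub_zero]

end main

end Pool.Agent.Helper9.CHI
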