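import Mathlib
import Pool.Agent.Helper9.CHI.Defs
import Pool.Agent.Helper40.CX.H26VC.Chow

/-!
# Linear automorphisms of a projective variety

Let `ξ` be the homogeneous coordinates of the generic point of `X`, and let the automorphism `σ` of
the field which contains them act on `ξ` by the matrix `g`. Then `g` acts on `X`, the map `r` of the
points given by `g` is induced by a morphism, and `r ^ m = 1` if `σ ^ m = 1`.
-/

set_option autoImplicit false
set_option linter.unusedSectionVars false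

namespace Pool.Agent.Helper9.CHI

open CX CX.VC CX.BC CX.Pool.Agent.Helper21.TO Function

variable {Ω F K : Type} [Field Ω] [Field F] [Algebra Ω F] [Field K] [Algebra Ω K] {N : ℕ}
  {ξ : Fin N → F} {g : Matrix (Fin N) (Fin N) Ω} {σ : F ≃ₐ[Ω] F}

/-- The action of the matrix on vectors with entries in an extension field. -/
def vecK (K : Type) [Field K] [Algebra Ω K] (g : Matrix (Fin N) (Fin N) Ω) (a : Fin N → K) :
    Fin N → K := fun j => ∑ l, algebraMap Ω K (g j l) * a l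

theorem vecK_eq (g : Matrix (Fin N) (Fin N) Ω) (a : Fin N → K) :
    vecK K g a = ((algebraMap Ω K).mapMatrix g).mulVec a := rfl

theorem vecK_one (a : Fin N → K) : vecK K (1 : Matrix (Fin N) (Fin N) Ω) a = a := by
  rw [vecK_eq, map_one, Matrix.one_mulVec]

theorem vecK_mul (g h : Matrix (Fin N) (Fin N) Ω) (a : Fin N → K) :
    vecK K (g * h) a = vecK K g (vecK K h a) := by
  rw [vecK_eq, vecK_eq, vecK_eq, map_mul, Matrix.mulVec_mulVec]

theorem vecK_smul (g : Matrix (Fin N) (Fin N) Ω) (c : K) (a : Fin N → K) :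
    vecK K g (fun l => c * a l) = fun j => c * vecK K g a j := by
  funext j
  unfold vecK
  rw [Finset.mul_sum]
  exact Finset.sum_congr rfl fun l _ => by ring

theorem vecK_zero (g : Matrix (Fin N) (Fin N) Ω) : vecK K g (0 : Fin N → K) = 0 := by
  funext j
  unfold vecK
  simp

/-- The linear forms of the matrix. -/
noncomputable def rowForm (g : Matrix (Fin N) (Fin N) Ω) (j : Fin N) : MvPolynomial (Fin N) Ω :=
  ∑ l, MvPolynomial.C (g j l) * MvPolynomial.X l

theorem aeval_rowForm (g : Matrix (Fin N) (Fin N) Ω) (j : Fin N) (a : Fin N → K) :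
    MvPolynomial.aeval a (rowForm g j) = vecK K g a j := by
  unfold rowForm vecK
  rw [map_sum]
  refine Finset.sum_congr rfl fun l _ => ?_
  rw [map_mul, MvPolynomial.aeval_X, MvPolynomial.algHom_C]

theorem rowForm_homogeneous (g : Matrix (Fin N) (Fin N) Ω) (j : Fin N) :
    (rowForm g j).IsHomogeneous 1 := by
  refine MvPolynomial.IsHomogeneous.sum _ _ _ fun l _ => ?_
  have := (MvPolynomial.isHomogeneous_C (Fin N) (g j l)).mul
    (MvPolynomial.isHomogeneous_X Ω l)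
  rwa [zero_add] at this

theorem sat_vecK (hσ : ∀ j, σ (ξ j) = ∑ l, algebraMap Ω F (g j l) * ξ l) {a : Fin N → K}
    (h : Sat (van Ω ξ) a) : Sat (van Ω ξ) (vecK K g a) := by
  intro P hP n hn
  set Q : MvPolynomial (Fin N) Ω := MvPolynomial.aeval (rowForm g) P with hQ
  have hQn : Q.IsHomogeneous n := by
    have := hn.aeval _ (n := 1) (fun j => rowForm_homogeneous g j)
    rwa [one_mul] at this
  have hev : ∀ {K : Type} [Field K] [Algebra Ω K] (a : Fin N → K),
      MvPolynomial.aeval a Q = MvPolynomial.aeval (vecK K g a) P := by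
    intro K _ _ a
    rw [hQ]
    have h1 : MvPolynomial.aeval (rowForm g) P = MvPolynomial.bind₁ (rowForm g) P := rfl
    rw [h1, MvPolynomial.aeval_bind₁]
    congr 2
    funext j
    exact aeval_rowForm g j a
  rw [← hev]
  refine h Q ?_ n hQn
  change MvPolynomial.aeval ξ Q = 0
  rw [hev]
  have e : vecK F g ξ = fun j => σ (ξ j) := funext fun j => (hσ j).symm
  have h2 : MvPolynomial.aeval (fun j => σ (ξ j)) P = σ (MvPolynomial.aeval ξ P) := by
    have := MvPolynomial.comp_aeval_apply (B := F) (f := ξ) (σ : F →ₐ[Ω] F) P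
    exact this.symm
  rw [e, h2]
  have hP' : MvPolynomial.aeval ξ P = 0 := hP
  rw [hP', map_zero]

theorem vecK_pow_gen (hσ : ∀ j, σ (ξ j) = ∑ l, algebraMap Ω F (g j l) * ξ l) (m : ℕ) :
    vecK F (g ^ m) ξ = fun j => (σ ^ m) (ξ j) := by
  induction m with
  | zero => rw [pow_zero, vecK_one]; rfl
  | succ m ih =>
    rw [pow_succ', vecK_mul, ih, pow_succ]
    funext j
    have h1 : ((σ ^ m * σ : F ≃ₐ[Ω] F)) (ξ j) = (σ ^ m) (σ (ξ j)) := rfl
    rw [h1, hσ, map_sum]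
    unfold vecK
    refine Finset.sum_congr rfl fun l _ => ?_
    rw [map_mul, AlgEquiv.commutes]

theorem vecK_pow (hσ : ∀ j, σ (ξ j) = ∑ l, algebraMap Ω F (g j l) * ξ l) {m : ℕ} (hm : σ ^ m = 1)
    {a : Fin N → K} (h : Sat (van Ω ξ) a) : vecK K (g ^ m) a = a := by
  funext j
  have h1 := h (rowForm (g ^ m) j - MvPolynomial.X j) (by
    change MvPolynomial.aeval ξ _ = 0
    rw [map_sub, aeval_rowForm, MvPolynomial.aeval_X, vecK_pow_gen hσ, hm]
    exact sub_self _) 1 ((rowForm_homogeneous _ j).sub (MvPolynomial.isHomogeneous_X Ω j))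
  rw [map_sub, aeval_rowForm, MvPolynomial.aeval_X, sub_eq_zero] at h1
  exact h1

theorem vecK_ne (hσ : ∀ j, σ (ξ j) = ∑ l, algebraMap Ω F (g j l) * ξ l) {m : ℕ} (hm : σ ^ m = 1)
    (hm0 : m ≠ 0) {a : Fin N → K} (h : Sat (van Ω ξ) a) (ha : a ≠ 0) : vecK K g a ≠ 0 := by
  intro h0
  apply ha
  rw [← vecK_pow hσ hm h]
  obtain ⟨l, rfl⟩ := Nat.exists_eq_succ_of_ne_zero hm0
  rw [pow_succ, vecK_mul, h0, vecK_zero]

/-- The points of the map given by the matrix. -/
theorem IsLin.map_ppt {I : Set (MvPolynomial (Fin N) Ω)} {r : PPt Ω Ω I → PPt Ω Ω I} (hr : IsLin g r)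
    {b : Fin N → Ω} (hb : b ≠ 0) (h : Sat I b) (hb' : vecK Ω g b ≠ 0) (h' : Sat I (vecK Ω g b)) :
    r (ppt b hb h) = ppt (vecK Ω g b) hb' h' := by
  obtain ⟨c, hc, e⟩ := hr (ppt b hb h)
  obtain ⟨u, hu⟩ := Projectivization.exists_smul_eq_mk_rep Ω b hb
  have e1 : (ppt b hb h).1.rep = fun l => (u : Ω) * b l := by
    change (Projectivization.mk Ω b hb).rep = _
    rw [← hu]
    rfl
  have e2 : r (ppt b hb h) = ppt (r (ppt b hb h)).1.rep (r (ppt b hb h)).1.rep_nonzero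
      (r (ppt b hb h)).2 := by
    apply Subtype.ext
    exact (Projectivization.mk_rep _).symm
  rw [e2, ppt_eq_iff]
  refine ⟨c⁻¹ * u, fun i => ?_⟩
  have e3 := e i
  rw [e1] at e3
  have e4 : (∑ l, g i l * ((u : Ω) * b l)) = (u : Ω) * vecK Ω g b i := by
    unfold vecK
    rw [Finset.mul_sum]
    refine Finset.sum_congr rfl fun l _ => ?_
    rw [Algebra.algebraMap_self, RingHom.id_apply]
    ring
  have e5 : c * (r (ppt b hb h)).1.rep i = (u : Ω) * vecK Ω g b i := e3.trans e4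
  rw [mul_assoc, ← e5, ← mul_assoc, inv_mul_cancel₀ hc, one_mul]

theorem iterate_lin (hσ : ∀ j, σ (ξ j) = ∑ l, algebraMap Ω F (g j l) * ξ l) {m : ℕ}
    (hm : σ ^ m = 1) (hm0 : m ≠ 0) {r : PPt Ω Ω (van Ω ξ) → PPt Ω Ω (van Ω ξ)} (hr : IsLin g r)
    {b : Fin N → Ω} (hb : b ≠ 0) (h : Sat (van Ω ξ) b) (j : ℕ) :
    ∃ hb' h', r^[j] (ppt b hb h) = ppt (vecK Ω (g ^ j) b) hb' h' := by
  induction j with
  | zero =>
    rw [pow_zero, vecK_one]
    exact ⟨hb, h, rfl⟩
  | succ j ih =>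
    obtain ⟨hb1, h1, e⟩ := ih
    rw [pow_succ', vecK_mul]
    refine ⟨vecK_ne hσ hm hm0 h1 hb1, sat_vecK hσ h1, ?_⟩
    rw [iterate_succ_apply', e]
    exact hr.map_ppt hb1 h1 _ _

theorem lin_order (hσ : ∀ j, σ (ξ j) = ∑ l, algebraMap Ω F (g j l) * ξ l) {m : ℕ}
    (hm : σ ^ m = 1) (hm0 : m ≠ 0) {r : PPt Ω Ω (van Ω ξ) → PPt Ω Ω (van Ω ξ)} (hr : IsLin g r)
    (p : PPt Ω Ω (van Ω ξ)) : r^[m] p = p := by
  obtain ⟨b, hb, h, rfl⟩ := exists_ppt p
  obtain ⟨hb', h', e⟩ := iterate_lin hσ hm hm0 hr hb h m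
  rw [e]
  congr 1
  exact vecK_pow hσ hm h

variable [IsAlgClosed Ω] [Good Ω]

theorem induced_lin (hσ : ∀ j, σ (ξ j) = ∑ l, algebraMap Ω F (g j l) * ξ l) {m : ℕ}
    (hm : σ ^ m = 1) (hm0 : m ≠ 0) {r : (proj Ω (van Ω ξ)).Pt → (proj Ω (van Ω ξ)).Pt}
    (hr : IsLin g r) : Induced (proj Ω (van Ω ξ)) (proj Ω (van Ω ξ)) r := by
  intro K _ _ hK c
  have hsat : Sat (van Ω ξ) c.1.rep := c.2
  refine ⟨ppt (vecK K g c.1.rep) (vecK_ne hσ hm hm0 hsat c.1.rep_nonzero) (sat_vecK hσ hsat), ?_⟩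
  intro v
  obtain ⟨a, ha, h, b, hb, h', e1, e2, hv⟩ := exists_pcoord hK v c
  have e3 : ppt (vecK K g c.1.rep) (vecK_ne hσ hm hm0 hsat c.1.rep_nonzero) (sat_vecK hσ hsat) =
      ppt (I := van Ω ξ) (vecK K g a) (vecK_ne hσ hm hm0 h ha) (sat_vecK hσ h) := by
    obtain ⟨u, hu⟩ := Projectivization.exists_smul_eq_mk_rep K a ha
    have e4 : c.1.rep = fun l => (u : K) * a l := by
      rw [e1]
      change (Projectivization.mk K a ha).rep = _
      rw [← hu]
      rfl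
    rw [ppt_eq_iff]
    refine ⟨u, fun i => ?_⟩
    rw [e4, vecK_smul]
  rw [e3, e2, hr.map_ppt hb h' (vecK_ne hσ hm hm0 h' hb) (sat_vecK hσ h')]
  refine peval_eq hK v _ _ _ _ fun j => ?_
  rw [← aeval_rowForm, ← aeval_rowForm]
  exact isRes_mvaeval hv _

end Pool.Agent.Helper9.CHI
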