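import Mathlib
import Pool.Agent.Helper9.CHI.Cyc
import Pool.Agent.Helper9.CHI.Lin

/-!
# `HasVoisinChi` from the statement on functions
-/

set_option autoImplicit false

namespace Pool.Agent.Helper9.CHI

open IntermediateField CX CX.VC CX.BC CX.Pool.Agent.Helper21.TO Function

section lin

variable {Ω F : Type} [Field Ω] [IsAlgClosed Ω] [Good Ω] [Field F] [Algebra Ω F] {N : ℕ}
  {ξ : Fin N → F} {g : Matrix (Fin N) (Fin N) Ω} {σ : F ≃ₐ[Ω] F}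

theorem chi_cycle (hσ : ∀ j, σ (ξ j) = ∑ l, algebraMap Ω F (g j l) * ξ l) {m : ℕ}
    (hm : σ ^ m = 1) (hm0 : m ≠ 0) {r : (proj Ω (van Ω ξ)).Pt → (proj Ω (van Ω ξ)).Pt}
    (hr : IsLin g r)
    (h : ∀ χ : ℂ, χ ^ m = 1 → χ ≠ 1 → CX.CHI.VoisinChi (proj Ω (van Ω ξ)) r χ 2)
    (a b : (proj Ω (van Ω ξ)).Cycles) :
    ∃ n : ℕ, 0 < n ∧ n • chiCycle r m a b ∈ ((proj Ω (van Ω ξ)).pow 2).Rat := by
  have : NeZero m := ⟨hm0⟩
  exact chi_cycle_abs (induced_lin hσ hm hm0 hr) (lin_order hσ hm hm0 hr) h a b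

/-- The automorphism given by the matrix exists (and it is unique, `IsLin.map_ppt`). -/
theorem exists_lin (hσ : ∀ j, σ (ξ j) = ∑ l, algebraMap Ω F (g j l) * ξ l) {m : ℕ}
    (hm : σ ^ m = 1) (hm0 : m ≠ 0) :
    ∃ r : (proj Ω (van Ω ξ)).Pt → (proj Ω (van Ω ξ)).Pt, IsLin g r := by
  refine ⟨fun p => ppt (vecK Ω g p.1.rep) (vecK_ne hσ hm hm0 p.2 p.1.rep_nonzero)
    (sat_vecK hσ p.2), fun p => ?_⟩
  obtain ⟨u, hu⟩ := Projectivization.exists_smul_eq_mk_rep Ω (vecK Ω g p.1.rep)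
    (vecK_ne hσ hm hm0 p.2 p.1.rep_nonzero)
  refine ⟨((u⁻¹ : Ωˣ) : Ω), u⁻¹.ne_zero, fun j => ?_⟩
  change ((u⁻¹ : Ωˣ) : Ω) * (Projectivization.mk Ω (vecK Ω g p.1.rep) _).rep j = _
  rw [← hu]
  change ((u⁻¹ : Ωˣ) : Ω) * ((u : Ω) * vecK Ω g p.1.rep j) = _
  rw [← mul_assoc, Units.inv_mul, one_mul]
  rfl

end lin

section const

variable {O Ω M F : Type} [Field O] [Field Ω] [Field M] [Field F] [Algebra O Ω] [Algebra O M]
  [Algebra Ω F] {i : M →+* F} {s : M ≃ₐ[O] M} {σ : F ≃ₐ[Ω] F}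

theorem const_pow (hi : IsConst O Ω M F i) (hσ : ∀ z, σ (i z) = i (s z)) {m : ℕ}
    (hs : s ^ m = 1) : σ ^ m = 1 := by
  have h1 : ∀ (n : ℕ) (z : M), (σ ^ n) (i z) = i ((s ^ n) z) := by
    intro n
    induction n with
    | zero => intro z; rfl
    | succ n ih =>
      intro z
      have e1 : (σ ^ (n + 1)) (i z) = (σ ^ n) (σ (i z)) := by rw [pow_succ]; rfl
      have e2 : (s ^ (n + 1)) z = (s ^ n) (s z) := by rw [pow_succ]; rfl
      rw [e1, e2, hσ, ih]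
  apply AlgEquiv.ext
  intro x
  have hx : x ∈ adjoin Ω (Set.range i) := by rw [hi.gen]; trivial
  change (σ ^ m) x = x
  induction hx using adjoin_induction with
  | mem x hx =>
    obtain ⟨z, rfl⟩ := hx
    rw [h1, hs]
    rfl
  | algebraMap c => rw [AlgEquiv.commutes]
  | add x y _ _ hx hy => rw [map_add, hx, hy]
  | inv x _ hx => rw [map_inv₀, hx]
  | mul x y _ _ hx hy => rw [map_mul, hx, hy]

end const

/-- The statement on functions implies the statement on cycles. -/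
theorem hasVoisinChi_of {O M : Type} [Field O] [Field M] [Algebra O M] {s : M ≃ₐ[O] M} {m : ℕ}
    (hs : s ^ m = 1) (hm : m ≠ 0)
    (h : ∀ (Ω : Type) [Field Ω] [Algebra O Ω] [IsAlgClosed Ω] [Good Ω],
      ∃ (F : Type) (_ : Field F) (_ : Algebra Ω F) (i : M →+* F) (σ : F ≃ₐ[Ω] F),
        IsConst O Ω M F i ∧ (∀ z, σ (i z) = i (s z)) ∧
        ∀ (N : ℕ) (ξ : Fin N → F) (g : Matrix (Fin N) (Fin N) Ω), ξ ≠ 0 →
          (∀ j, σ (ξ j) = ∑ l, algebraMap Ω F (g j l) * ξ l) →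
          ∀ r : (proj Ω (van Ω ξ)).Pt → (proj Ω (van Ω ξ)).Pt, IsLin g r →
            ∀ χ : ℂ, χ ^ m = 1 → χ ≠ 1 → CX.CHI.VoisinChi (proj Ω (van Ω ξ)) r χ 2) :
    HasVoisinChi O M s m := by
  intro Ω _ _ _ _
  obtain ⟨F, _, _, i, σ, hi, hσ, H⟩ := h Ω
  refine ⟨F, inferInstance, inferInstance, i, σ, hi, hσ, fun N ξ g hξ hg r hr a b => ?_⟩
  exact chi_cycle hg (const_pow hi hσ hs) hm hr (H N ξ g hξ hg r hr) a b

end Pool.Agent.Helper9.CHI
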