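import Mathlib
import Pool.Agent.Helper40.CX.CHI.Defs
import Pool.Agent.Helper40.CX.H83EW.Red

/-!
# Minimality of the base change

For `N = 1` and nonconstant `j` the base change `u = w ^ m` of the Weierstrass equation is minimal
if `A` and `B` do not vanish both at `u = 0`, and do not vanish both at `u = ∞`.
-/

set_option autoImplicit false
set_option linter.unusedSectionVars false

namespace Pool.Agent.Helper9.CHI

open CX CX.VC CX.CHI CX.Pool.Agent.Helper21.TO CX.Pool.Agent.Helper83.EW
open CX.Pool.Agent.Helper51.EW (Wei)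

universe u

variable {k : Type u} [Field k]

/-- The multiplicity of a root different from zero of `f (X ^ m)`. -/
theorem dvd_of_expand {m : ℕ} (hm : (m : k) ≠ 0) {τ : k} (hτ : τ ≠ 0) {f : Polynomial k} {j : ℕ}
    (h : (Polynomial.X - Polynomial.C τ) ^ j ∣ Polynomial.expand k m f) :
    (Polynomial.X - Polynomial.C (τ ^ m)) ^ j ∣ f := by
  rcases eq_or_ne f 0 with rfl | hf
  · exact dvd_zero _
  obtain ⟨g, hg, hgd⟩ := Polynomial.exists_eq_pow_rootMultiplicity_mul_and_not_dvd f hf (τ ^ m)
  set r := f.rootMultiplicity (τ ^ m) with hr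
  have hm0 : m ≠ 0 := by rintro rfl; exact hm Nat.cast_zero
  -- the simple root
  obtain ⟨q, hq⟩ : Polynomial.X - Polynomial.C τ ∣
      (Polynomial.X ^ m - Polynomial.C (τ ^ m) : Polynomial k) := by
    rw [Polynomial.dvd_iff_isRoot, Polynomial.IsRoot, Polynomial.eval_sub, Polynomial.eval_pow,
      Polynomial.eval_X, Polynomial.eval_C, sub_self]
  have hqτ : q.eval τ = m * τ ^ (m - 1) := by
    have h1 := congrArg (fun p => (Polynomial.derivative p).eval τ) hq
    simp only [Polynomial.derivative_sub, Polynomial.derivative_X_pow, Polynomial.derivative_C,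
      Polynomial.derivative_mul, Polynomial.derivative_X, Polynomial.eval_sub, Polynomial.eval_mul,
      Polynomial.eval_add, Polynomial.eval_pow, Polynomial.eval_X, Polynomial.eval_C, sub_zero,
      sub_self, one_mul, zero_mul, add_zero, Polynomial.eval_natCast] at h1
    simpa using h1.symm
  have hq0 : q.eval τ ≠ 0 := by
    rw [hqτ]
    exact mul_ne_zero hm (pow_ne_zero _ hτ)
  have hexp : Polynomial.expand k m f = (Polynomial.X - Polynomial.C τ) ^ r *
      (q ^ r * Polynomial.expand k m g) := by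
    conv_lhs => rw [hg]
    rw [map_mul, map_pow, map_sub, Polynomial.expand_X, Polynomial.expand_C, hq, mul_pow, mul_assoc]
  have hne : ¬ (Polynomial.X - Polynomial.C τ) ∣ q ^ r * Polynomial.expand k m g := by
    rw [Polynomial.dvd_iff_isRoot, Polynomial.IsRoot, Polynomial.eval_mul, Polynomial.eval_pow,
      Polynomial.expand_eval]
    intro h0
    rcases mul_eq_zero.mp h0 with h0 | h0
    · exact pow_ne_zero _ hq0 h0
    · exact hgd (Polynomial.dvd_iff_isRoot.mpr h0)
  have hjr : j ≤ r := by
    by_contra hlt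
    apply hne
    have h1 : (Polynomial.X - Polynomial.C τ) ^ (r + 1) ∣ Polynomial.expand k m f :=
      (pow_dvd_pow _ (by omega)).trans h
    rw [hexp, pow_succ] at h1
    exact (mul_dvd_mul_iff_left (pow_ne_zero _ (Polynomial.X_sub_C_ne_zero τ))).mp h1
  rw [hg]
  exact (pow_dvd_pow _ hjr).trans (dvd_mul_right _ _)

/-- The standard basis. -/
def stdBas (k : Type u) [Field k] : Bas k where
  e0 := ![1, 0]
  e1 := ![0, 1]
  det := by simp

theorem deh_std (F : MvPolynomial (Fin 2) k) :
    deh (stdBas k) F = MvPolynomial.aeval ![1, Polynomial.X] F := by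
  unfold deh
  congr 2
  funext i
  fin_cases i <;> simp [stdBas]

theorem deh_expand (m : ℕ) (F : MvPolynomial (Fin 2) k) :
    deh (stdBas k) (MvPolynomial.expand m F) = Polynomial.expand k m (deh (stdBas k) F) := by
  rw [deh_std, deh_std]
  have h1 : (MvPolynomial.expand m F) = MvPolynomial.bind₁ (fun i => MvPolynomial.X i ^ m) F := rfl
  rw [h1, MvPolynomial.aeval_bind₁, MvPolynomial.comp_aeval_apply]
  congr 2
  funext i
  rw [map_pow, MvPolynomial.aeval_X]
  fin_cases i
  · simp
  · simp

theorem eval_expand_pt (m : ℕ) (F : MvPolynomial (Fin 2) k) (u : Fin 2 → k) :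
    MvPolynomial.eval u (MvPolynomial.expand m F) = MvPolynomial.eval (fun i => u i ^ m) F := by
  have h := aeval_expand (K := k) m F u
  simpa [MvPolynomial.coe_aeval_eq_eval] using h

/-- A linear form has a zero. -/
theorem exists_root {l : MvPolynomial (Fin 2) k} (hl : l.IsHomogeneous 1) :
    ∃ z : Fin 2 → k, z ≠ 0 ∧ MvPolynomial.eval z l = 0 := by
  have hlin : ∃ a b : k, ∀ u : Fin 2 → k, MvPolynomial.eval u l = a * u 0 + b * u 1 := by
    classical
    refine ⟨l.coeff (Finsupp.single 0 1), l.coeff (Finsupp.single 1 1), fun u => ?_⟩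
    have hs : l.support ⊆ {Finsupp.single 0 1, Finsupp.single 1 1} := by
      intro d hd
      have h1 := hl (MvPolynomial.mem_support_iff.mp hd)
      rw [Finsupp.weight_apply, Finsupp.sum_fintype _ _ (fun i => by simp), Fin.sum_univ_two] at h1
      simp only [Pi.one_apply, smul_eq_mul, mul_one] at h1
      rw [Finset.mem_insert, Finset.mem_singleton]
      rcases Nat.eq_zero_or_pos (d 0) with h0 | h0
      · right
        ext i
        fin_cases i
        · simpa using h0
        · have : d 1 = 1 := by omega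
          simpa using this
      · left
        ext i
        fin_cases i
        · have : d 0 = 1 := by omega
          simpa using this
        · have : d 1 = 0 := by omega
          simpa using this
    have hne : (Finsupp.single (0 : Fin 2) 1 : Fin 2 →₀ ℕ) ≠ Finsupp.single 1 1 := by
      intro h
      have := DFunLike.congr_fun h 0
      simp at this
    rw [MvPolynomial.eval_eq', Finset.sum_subset hs, Finset.sum_pair hne]
    · simp [Fin.prod_univ_two]
    · intro d _ hd
      rw [MvPolynomial.notMem_support_iff.mp hd, zero_mul]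
  obtain ⟨a, b, hab⟩ := hlin
  rcases eq_or_ne b 0 with hb | hb
  · refine ⟨![0, 1], ?_, ?_⟩
    · intro h; have := congrFun h 1; simp at this
    · rw [hab, hb]; simp
  · refine ⟨![b, -a], ?_, ?_⟩
    · intro h; exact hb (congrFun h 0)
    · rw [hab]; simp; ring

/-- Minimality of the base change. -/
theorem minimal_pull [Infinite k] {W : Wei k} (hN : W.N = 1)
    (hj : ∀ c d : k, (c ≠ 0 ∨ d ≠ 0) →
      MvPolynomial.C c * W.A ^ 3 ≠ MvPolynomial.C d * W.B ^ 2)
    (h0 : MvPolynomial.eval ![1, 0] W.A ≠ 0 ∨ MvPolynomial.eval ![1, 0] W.B ≠ 0)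
    (h1 : MvPolynomial.eval ![0, 1] W.A ≠ 0 ∨ MvPolynomial.eval ![0, 1] W.B ≠ 0)
    {m : ℕ} (hm : (m : k) ≠ 0) : Minimal (pull W m) := by
  intro l hl hl0 ⟨hlA, hlB⟩
  change l ^ 4 ∣ MvPolynomial.expand m W.A at hlA
  change l ^ 6 ∣ MvPolynomial.expand m W.B at hlB
  have hm0 : m ≠ 0 := by rintro rfl; exact hm Nat.cast_zero
  obtain ⟨z, hz, hlz⟩ := exists_root hl
  have hA0 : MvPolynomial.eval (fun i => z i ^ m) W.A = 0 := by
    obtain ⟨q, hq⟩ := hlA
    rw [← eval_expand_pt, hq, map_mul, map_pow, hlz]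
    ring
  have hB0 : MvPolynomial.eval (fun i => z i ^ m) W.B = 0 := by
    obtain ⟨q, hq⟩ := hlB
    rw [← eval_expand_pt, hq, map_mul, map_pow, hlz]
    ring
  have hAh : W.A.IsHomogeneous 4 := by have := W.hA; rwa [hN] at this
  have hBh : W.B.IsHomogeneous 6 := by have := W.hB; rwa [hN] at this
  -- scaling of the point
  have hscale : ∀ {n : ℕ} {F : MvPolynomial (Fin 2) k}, F.IsHomogeneous n → ∀ (c : k) (u : Fin 2 → k),
      MvPolynomial.eval (fun i => c * u i) F = c ^ n * MvPolynomial.eval u F := by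
    intro n F hF c u
    have h := aeval_smul' (K := k) hF c u
    simpa [MvPolynomial.coe_aeval_eq_eval] using h
  rcases eq_or_ne (z 0) 0 with hz0 | hz0
  · have hz1 : z 1 ≠ 0 := by
      intro h
      apply hz
      funext i
      fin_cases i
      · exact hz0
      · exact h
    have e : (fun i => z i ^ m) = fun i => z 1 ^ m * (![0, 1] : Fin 2 → k) i := by
      funext i
      fin_cases i
      · change z 0 ^ m = _
        rw [hz0, zero_pow hm0]
        simp
      · simp
    rw [e, hscale hAh] at hA0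
    rw [e, hscale hBh] at hB0
    rcases h1 with h | h
    · exact mul_ne_zero (pow_ne_zero _ (pow_ne_zero _ hz1)) h hA0
    · exact mul_ne_zero (pow_ne_zero _ (pow_ne_zero _ hz1)) h hB0
  rcases eq_or_ne (z 1) 0 with hz1 | hz1
  · have e : (fun i => z i ^ m) = fun i => z 0 ^ m * (![1, 0] : Fin 2 → k) i := by
      funext i
      fin_cases i
      · simp
      · change z 1 ^ m = _
        rw [hz1, zero_pow hm0]
        simp
    rw [e, hscale hAh] at hA0
    rw [e, hscale hBh] at hB0
    rcases h0 with h | h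
    · exact mul_ne_zero (pow_ne_zero _ (pow_ne_zero _ hz0)) h hA0
    · exact mul_ne_zero (pow_ne_zero _ (pow_ne_zero _ hz0)) h hB0
  -- the root is different from `0` and `∞`
  set E := stdBas k
  set τ := z 1 / z 0 with hτ
  have hτ0 : τ ≠ 0 := div_ne_zero hz1 hz0
  have hdl : (Polynomial.X - Polynomial.C τ) ∣ deh E l := by
    rw [Polynomial.dvd_iff_isRoot, Polynomial.IsRoot, eval_deh]
    have e : (fun i => E.e0 i + τ * E.e1 i) = fun i => (z 0)⁻¹ * z i := by
      funext i
      fin_cases i
      · change (1 : k) + τ * 0 = (z 0)⁻¹ * z 0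
        rw [inv_mul_cancel₀ hz0]; ring
      · change (0 : k) + τ * 1 = (z 0)⁻¹ * z 1
        rw [hτ, div_eq_inv_mul]; ring
    rw [e, hscale hl, hlz, mul_zero]
  have hdA : (Polynomial.X - Polynomial.C (τ ^ m)) ^ 4 ∣ deh E W.A := by
    apply dvd_of_expand hm hτ0
    rw [← deh_expand]
    refine (pow_dvd_pow_of_dvd hdl 4).trans ?_
    obtain ⟨q, hq⟩ := hlA
    refine ⟨deh E q, ?_⟩
    rw [hq]
    unfold deh
    rw [map_mul, map_pow]
  have hdB : (Polynomial.X - Polynomial.C (τ ^ m)) ^ 6 ∣ deh E W.B := by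
    apply dvd_of_expand hm hτ0
    rw [← deh_expand]
    refine (pow_dvd_pow_of_dvd hdl 6).trans ?_
    obtain ⟨q, hq⟩ := hlB
    refine ⟨deh E q, ?_⟩
    rw [hq]
    unfold deh
    rw [map_mul, map_pow]
  set P : Polynomial k := Polynomial.X - Polynomial.C (τ ^ m) with hP
  have hconst : ∀ {n : ℕ} {f : Polynomial k}, f.natDegree ≤ n → P ^ n ∣ f →
      ∃ c : k, f = Polynomial.C c * P ^ n := by
    intro n f hn hd
    obtain ⟨q, rfl⟩ := hd
    rcases eq_or_ne q 0 with rfl | hq
    · exact ⟨0, by simp⟩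
    have h2 : (P ^ n).natDegree = n := by
      rw [Polynomial.natDegree_pow, hP, Polynomial.natDegree_X_sub_C, mul_one]
    rw [Polynomial.natDegree_mul (pow_ne_zero _ (Polynomial.X_sub_C_ne_zero _)) hq, h2] at hn
    have h3 : q.natDegree = 0 := by omega
    rw [Polynomial.natDegree_eq_zero] at h3
    obtain ⟨c, rfl⟩ := h3
    exact ⟨c, mul_comm _ _⟩
  obtain ⟨c, hc⟩ := hconst (natDegree_deh_le E hAh) hdA
  obtain ⟨d, hd⟩ := hconst (natDegree_deh_le E hBh) hdB
  have hz' : MvPolynomial.C (d ^ 2) * W.A ^ 3 = MvPolynomial.C (c ^ 3) * W.B ^ 2 := by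
    rw [← sub_eq_zero]
    by_contra hne
    have hhom : (MvPolynomial.C (d ^ 2) * W.A ^ 3 - MvPolynomial.C (c ^ 3) * W.B ^ 2).IsHomogeneous
        12 := by
      refine MvPolynomial.IsHomogeneous.sub ?_ ?_
      · have := (MvPolynomial.isHomogeneous_C (Fin 2) (d ^ 2)).mul (hAh.pow 3)
        rwa [show 0 + 4 * 3 = 12 by norm_num] at this
      · have := (MvPolynomial.isHomogeneous_C (Fin 2) (c ^ 3)).mul (hBh.pow 2)
        rwa [show 0 + 6 * 2 = 12 by norm_num] at this
    apply deh_ne_zero E hhom hne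
    have e1 : deh E (MvPolynomial.C (d ^ 2) * W.A ^ 3 - MvPolynomial.C (c ^ 3) * W.B ^ 2) =
        Polynomial.C (d ^ 2) * deh E W.A ^ 3 - Polynomial.C (c ^ 3) * deh E W.B ^ 2 := by
      unfold deh
      rw [map_sub, map_mul, map_mul, map_pow _ W.A, map_pow _ W.B, MvPolynomial.algHom_C,
        MvPolynomial.algHom_C]
      rfl
    rw [e1, hc, hd]
    simp only [map_pow]
    ring
  by_cases hcd : c = 0 ∧ d = 0
  · obtain ⟨rfl, rfl⟩ := hcd
    have hA' : W.A = 0 := by
      by_contra hne
      exact deh_ne_zero E hAh hne (by rw [hc]; simp)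
    have hB' : W.B = 0 := by
      by_contra hne
      exact deh_ne_zero E hBh hne (by rw [hd]; simp)
    rw [hA', hB'] at h0
    simp at h0
  · refine hj (d ^ 2) (c ^ 3) ?_ hz'
    by_contra hcon
    push Not at hcon
    apply hcd
    exact ⟨pow_eq_zero_iff (by norm_num) |>.mp hcon.2, pow_eq_zero_iff (by norm_num) |>.mp hcon.1⟩

end Pool.Agent.Helper9.CHI
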