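import Mathlib
import Pool.Agent.Helper43.CH.Model

/-!
# Dickson polynomials

The field `O(x, y, v)`, `y ^ 2 = x ^ 3 + a(D v) x + b(D v)`, `deg a ≤ 2`, `deg b ≤ 3`, where `D` is the
Dickson polynomial of degree `n`, `D (t + 1 / t) = t ^ n + t ^ (-n)`, is contained in the field
`O(x', y', w)`, `y' ^ 2 = x' ^ 3 + A(w ^ (2 n)) x' + B(w ^ (2 n))`, where `A = X ^ 2 a (X + 1 / X)` and
`B = X ^ 3 b (X + 1 / X)` are palindromic: `v = w ^ 2 + w ^ (-2)`, `x' = w ^ (2 n) x`,
`y' = w ^ (3 n) y`.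
-/

set_option autoImplicit false

namespace Pool.Agent.Helper9.CHI

open IntermediateField Polynomial
open Pool.Agent.Helper43.CH (IsModel indep_of_algebraic)

section poly

variable {O : Type} [Field O]

/-- `X ^ 2 a (X + 1 / X)` -/
noncomputable def dickA (a : O[X]) : O[X] :=
  C (a.coeff 0) * X ^ 2 + C (a.coeff 1) * X * (X ^ 2 + 1) + C (a.coeff 2) * (X ^ 2 + 1) ^ 2

/-- `X ^ 3 b (X + 1 / X)` -/
noncomputable def dickB (b : O[X]) : O[X] :=
  C (b.coeff 0) * X ^ 3 + C (b.coeff 1) * X ^ 2 * (X ^ 2 + 1) +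
    C (b.coeff 2) * X * (X ^ 2 + 1) ^ 2 + C (b.coeff 3) * (X ^ 2 + 1) ^ 3

theorem aeval_dickA {a : O[X]} (ha : a.natDegree ≤ 2) {R : Type} [Field R] [Algebra O R] {t : R}
    (ht : t ≠ 0) : aeval t (dickA a) = t ^ 2 * aeval (t + t⁻¹) a := by
  rw [aeval_eq_sum_range' (Nat.lt_succ_of_le ha), dickA]
  simp only [Finset.sum_range_succ, Finset.sum_range_zero, map_add, map_mul, map_pow, aeval_C,
    aeval_X, map_one, Algebra.smul_def]
  field_simp
  ring

theorem aeval_dickB {b : O[X]} (hb : b.natDegree ≤ 3) {R : Type} [Field R] [Algebra O R] {t : R}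
    (ht : t ≠ 0) : aeval t (dickB b) = t ^ 3 * aeval (t + t⁻¹) b := by
  rw [aeval_eq_sum_range' (Nat.lt_succ_of_le hb), dickB]
  simp only [Finset.sum_range_succ, Finset.sum_range_zero, map_add, map_mul, map_pow, aeval_C,
    aeval_X, map_one, Algebra.smul_def]
  field_simp
  ring

theorem natDegree_dickA (a : O[X]) : (dickA a).natDegree ≤ 4 := by
  unfold dickA
  compute_degree

theorem natDegree_dickB (b : O[X]) : (dickB b).natDegree ≤ 6 := by
  unfold dickB
  compute_degree

theorem dickA_eq (a : O[X]) : dickA a = C (a.coeff 2) + C (a.coeff 1) * X +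
    C (a.coeff 0 + 2 * a.coeff 2) * X ^ 2 + C (a.coeff 1) * X ^ 3 + C (a.coeff 2) * X ^ 4 := by
  unfold dickA
  simp only [map_add, map_mul, map_ofNat]
  ring

theorem dickB_eq (b : O[X]) : dickB b = C (b.coeff 3) + C (b.coeff 2) * X +
    C (b.coeff 1 + 3 * b.coeff 3) * X ^ 2 + C (b.coeff 0 + 2 * b.coeff 2) * X ^ 3 +
    C (b.coeff 1 + 3 * b.coeff 3) * X ^ 4 + C (b.coeff 2) * X ^ 5 + C (b.coeff 3) * X ^ 6 := by
  unfold dickB
  simp only [map_add, map_mul, map_ofNat]
  ring

theorem dickA_coeff (a : O[X]) (i : ℕ) (hi : i ≤ 4) :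
    (dickA a).coeff (4 - i) = (dickA a).coeff i := by
  rw [dickA_eq]
  generalize a.coeff 0 + 2 * a.coeff 2 = c
  interval_cases i <;>
    simp [coeff_X, coeff_C, coeff_X_pow]

theorem dickB_coeff (b : O[X]) (i : ℕ) (hi : i ≤ 6) :
    (dickB b).coeff (6 - i) = (dickB b).coeff i := by
  rw [dickB_eq]
  generalize b.coeff 0 + 2 * b.coeff 2 = c
  generalize b.coeff 1 + 3 * b.coeff 3 = d
  interval_cases i <;>
    simp [coeff_X, coeff_C, coeff_X_pow]

theorem dickA_zero (a : O[X]) : (dickA a).coeff 0 = a.coeff 2 := by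
  rw [dickA_eq]
  generalize a.coeff 0 + 2 * a.coeff 2 = c
  simp [coeff_X, coeff_C, coeff_X_pow]

theorem dickB_zero (b : O[X]) : (dickB b).coeff 0 = b.coeff 3 := by
  rw [dickB_eq]
  generalize b.coeff 0 + 2 * b.coeff 2 = c
  generalize b.coeff 1 + 3 * b.coeff 3 = d
  simp [coeff_X, coeff_C, coeff_X_pow]

/-- Nonconstant `j`. -/
theorem dick_hj [IsAlgClosed O] {a b : O[X]} (ha : a.natDegree ≤ 2) (hb : b.natDegree ≤ 3)
    (hj : ∀ c d : O, C c * a ^ 3 = C d * b ^ 2 → c = 0 ∧ d = 0) (c d : O)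
    (h : C c * dickA a ^ 3 = C d * dickB b ^ 2) : c = 0 ∧ d = 0 := by
  have : Infinite O := IsAlgClosed.instInfinite
  apply hj c d
  apply Polynomial.funext
  intro τ
  obtain ⟨t, ht⟩ : ∃ t : O, t ^ 2 - τ * t + 1 = 0 := by
    obtain ⟨t, ht⟩ := IsAlgClosed.exists_root (X ^ 2 - C τ * X + 1 : O[X]) (by
      have e : (X ^ 2 - C τ * X + 1 : O[X]).degree = 2 := by compute_degree!
      rw [e]
      decide)
    refine ⟨t, ?_⟩
    simpa [IsRoot] using ht
  have ht0 : t ≠ 0 := by
    rintro rfl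
    simp at ht
  have hτ : t + t⁻¹ = τ := by
    field_simp
    linear_combination ht
  have h1 := congrArg (aeval t) h
  rw [map_mul, map_mul, map_pow, map_pow, aeval_dickA ha ht0, aeval_dickB hb ht0, hτ, aeval_C,
    aeval_C] at h1
  rw [eval_mul, eval_mul, eval_pow, eval_pow, eval_C, eval_C]
  have h2 : t ^ 6 ≠ 0 := pow_ne_zero _ ht0
  apply mul_left_cancel₀ h2
  simp only [Algebra.algebraMap_self, RingHom.id_apply, coe_aeval_eq_eval] at h1
  linear_combination h1

end poly

/-- `K = O(x, y, v)`, where `x`, `v` are algebraically independent and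
`y ^ 2 = x ^ 3 + a(D) * x + b(D)` for the Dickson polynomial `D` of degree `n` in `v`. -/
structure IsDickson (O : Type) {K : Type} [Field O] [Field K] [Algebra O K] (n : ℕ)
    (a b : O[X]) (x y v : K) : Prop where
  ind : AlgebraicIndependent O ![x, v]
  eqn : y ^ 2 = x ^ 3 + aeval (aeval v (dickson 1 (1 : O) n)) a * x +
    aeval (aeval v (dickson 1 (1 : O) n)) b
  gen : adjoin O {x, y, v} = ⊤

theorem aeval_dickson {O E : Type} [Field O] [Field E] [Algebra O E] (n : ℕ) {t : E} (ht : t ≠ 0) :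
    aeval (t + t⁻¹) (dickson 1 (1 : O) n) = t ^ n + t⁻¹ ^ n := by
  have h := dickson_one_one_eval_add_inv t t⁻¹ (mul_inv_cancel₀ ht) n
  rw [aeval_def, ← eval_map, map_dickson, map_one]
  exact h

theorem gen_subtype {O L : Type} [Field O] [Field L] [Algebra O L] (x y w : L) :
    adjoin O {(⟨x, subset_adjoin O {x, y, w} (by simp)⟩ : adjoin O {x, y, w}),
      ⟨y, subset_adjoin O {x, y, w} (by simp)⟩, ⟨w, subset_adjoin O {x, y, w} (by simp)⟩} = ⊤ := by
  apply IntermediateField.map_injective (adjoin O {x, y, w}).val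
  rw [adjoin_map, ← AlgHom.fieldRange_eq_map, fieldRange_val]
  congr 1
  ext z
  simp only [Set.mem_image, Set.mem_insert_iff, Set.mem_singleton_iff]
  constructor
  · rintro ⟨z, rfl | rfl | rfl, rfl⟩
    · exact Or.inl rfl
    · exact Or.inr (Or.inl rfl)
    · exact Or.inr (Or.inr rfl)
  · rintro (rfl | rfl | rfl)
    · exact ⟨_, Or.inl rfl, rfl⟩
    · exact ⟨_, Or.inr (Or.inl rfl), rfl⟩
    · exact ⟨_, Or.inr (Or.inr rfl), rfl⟩

theorem dickson_embed_aux {O K L : Type} [Field O] [Field K] [Algebra O K] [Field L]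
    [IsAlgClosed L] [Algebra O L] (ι : K →ₐ[O] L) {n : ℕ}
    {a b : O[X]} (ha : a.natDegree ≤ 2) (hb : b.natDegree ≤ 3) {x y v : K}
    (h : IsDickson O n a b x y v) :
    ∃ (E : Type) (_ : Field E) (_ : Algebra O E) (_ : K →ₐ[O] E) (x' y' w : E),
      IsModel O (2 * n) (dickA a) (dickB b) x' y' w := by
  obtain ⟨z, hz⟩ : ∃ z : L, z ^ 2 - ι v * z + 1 = 0 := by
    obtain ⟨t, ht⟩ := IsAlgClosed.exists_root (X ^ 2 - C (ι v) * X + 1 : L[X]) (by
      have e : (X ^ 2 - C (ι v) * X + 1 : L[X]).degree = 2 := by compute_degree!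
      rw [e]
      decide)
    refine ⟨t, ?_⟩
    simpa [IsRoot] using ht
  have hz0 : z ≠ 0 := by
    rintro rfl
    simp at hz
  obtain ⟨w, hw⟩ : ∃ w : L, w ^ 2 = z := IsAlgClosed.exists_pow_nat_eq z (by norm_num)
  have hw0 : w ≠ 0 := by
    rintro rfl
    apply hz0
    rw [← hw]
    ring
  have hv : ι v = w ^ 2 + (w ^ 2)⁻¹ := by
    rw [hw]
    field_simp
    linear_combination -hz
  set x' : L := w ^ (2 * n) * ι x with hx'
  set y' : L := w ^ (3 * n) * ι y with hy'
  have hD : ι (aeval v (dickson 1 (1 : O) n)) = w ^ (2 * n) + (w ^ (2 * n))⁻¹ := by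
    rw [← aeval_algHom_apply, hv, aeval_dickson n (pow_ne_zero 2 hw0), inv_pow, ← pow_mul]
  have hU : w ^ (2 * n) ≠ 0 := pow_ne_zero _ hw0
  have heq : y' ^ 2 = x' ^ 3 + aeval (w ^ (2 * n)) (dickA a) * x' +
      aeval (w ^ (2 * n)) (dickB b) := by
    have h1 := congrArg ι h.eqn
    rw [map_pow, map_add, map_add, map_mul, map_pow,
      ← aeval_algHom_apply ι (aeval v (dickson 1 (1 : O) n)) a,
      ← aeval_algHom_apply ι (aeval v (dickson 1 (1 : O) n)) b, hD] at h1
    rw [aeval_dickA ha hU, aeval_dickB hb hU, hx', hy', mul_pow, h1]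
    have e : (w ^ (3 * n)) ^ 2 = (w ^ (2 * n)) ^ 3 := by ring
    rw [e]
    ring
  -- the field
  let E := adjoin O {x', y', w}
  have hxE : x' ∈ E := subset_adjoin _ _ (by simp)
  have hyE : y' ∈ E := subset_adjoin _ _ (by simp)
  have hwE : w ∈ E := subset_adjoin _ _ (by simp)
  have hιx : ι x = x' * (w ^ (2 * n))⁻¹ := by
    rw [hx']
    field_simp
  have hιy : ι y = y' * (w ^ (3 * n))⁻¹ := by
    rw [hy']
    field_simp
  have hxE' : ι x ∈ E := by
    rw [hιx]
    exact mul_mem hxE (inv_mem (pow_mem hwE _))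
  have hyE' : ι y ∈ E := by
    rw [hιy]
    exact mul_mem hyE (inv_mem (pow_mem hwE _))
  have hvE : ι v ∈ E := by
    rw [hv]
    exact add_mem (pow_mem hwE 2) (inv_mem (pow_mem hwE 2))
  have hmem : ∀ z : K, ι z ∈ E := by
    intro z
    have hz : z ∈ adjoin O {x, y, v} := by rw [h.gen]; trivial
    induction hz using adjoin_induction with
    | mem z hz =>
      rcases hz with rfl | rfl | hz
      · exact hxE'
      · exact hyE'
      · rw [Set.mem_singleton_iff] at hz
        rw [hz]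
        exact hvE
    | algebraMap c => rw [AlgHom.commutes]; exact IntermediateField.algebraMap_mem _ _
    | add a b _ _ ha hb => rw [map_add]; exact add_mem ha hb
    | inv a _ ha => rw [map_inv₀]; exact inv_mem ha
    | mul a b _ _ ha hb => rw [map_mul]; exact mul_mem ha hb
  let f : K →ₐ[O] E := ι.codRestrict E.toSubalgebra hmem
  have hgen := gen_subtype (O := O) x' y' w
  refine ⟨E, inferInstance, inferInstance, f, ⟨x', hxE⟩, ⟨y', hyE⟩, ⟨w, hwE⟩, ?_, ?_, hgen⟩
  · -- independence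
    have h1 : AlgebraicIndependent O ![f x, f v] := by
      have h2 := h.ind.map' (f := f) f.toRingHom.injective
      have e : (f ∘ ![x, v]) = ![f x, f v] := by
        funext i
        fin_cases i <;> rfl
      rwa [e] at h2
    refine indep_of_algebraic h1 hgen ?_
    have hr : Set.range ![(⟨x', hxE⟩ : E), ⟨w, hwE⟩] = {⟨x', hxE⟩, ⟨w, hwE⟩} := by
      ext z
      simp only [Matrix.range_cons, Matrix.range_empty, Set.union_empty, Set.mem_insert_iff,
        Set.mem_union, Set.mem_singleton_iff]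
    rw [hr]
    set X' : E := ⟨x', hxE⟩
    set Y' : E := ⟨y', hyE⟩
    set W' : E := ⟨w, hwE⟩
    have hX : X' ∈ algebraicClosure (adjoin O {X', W'}) E := by
      rw [mem_algebraicClosure_iff]
      exact isAlgebraic_algebraMap (⟨X', subset_adjoin O _ (by simp)⟩ : adjoin O {X', W'})
    have hW : W' ∈ algebraicClosure (adjoin O {X', W'}) E := by
      rw [mem_algebraicClosure_iff]
      exact isAlgebraic_algebraMap (⟨W', subset_adjoin O _ (by simp)⟩ : adjoin O {X', W'})
    have hY : Y' ∈ algebraicClosure (adjoin O {X', W'}) E := by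
      rw [mem_algebraicClosure_iff]
      apply IsAlgebraic.of_pow (n := 2) (by norm_num)
      rw [← mem_algebraicClosure_iff]
      have hp : ∀ G : O[X], aeval (W' ^ (2 * n)) G ∈ algebraicClosure (adjoin O {X', W'}) E := by
        intro G
        rw [aeval_eq_sum_range]
        refine sum_mem fun i _ => ?_
        rw [Algebra.smul_def, IsScalarTower.algebraMap_apply O (adjoin O {X', W'}) E]
        exact mul_mem (IntermediateField.algebraMap_mem _ _) (pow_mem (pow_mem hW _) i)
      have e : Y' ^ 2 = X' ^ 3 + aeval (W' ^ (2 * n)) (dickA a) * X' +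
          aeval (W' ^ (2 * n)) (dickB b) := by
        apply E.val.toRingHom.injective
        change E.val (Y' ^ 2) = E.val (X' ^ 3 + aeval (W' ^ (2 * n)) (dickA a) * X' +
          aeval (W' ^ (2 * n)) (dickB b))
        rw [map_pow, map_add, map_add, map_mul, map_pow, ← aeval_algHom_apply,
          ← aeval_algHom_apply, map_pow]
        exact heq
      rw [e]
      exact add_mem (add_mem (pow_mem hX 3) (mul_mem (hp _) hX)) (hp _)
    rintro z (rfl | rfl | rfl)
    · exact mem_algebraicClosure_iff.1 hX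
    · exact mem_algebraicClosure_iff.1 hY
    · exact mem_algebraicClosure_iff.1 hW
  · apply E.val.toRingHom.injective
    change E.val ((⟨y', hyE⟩ : E) ^ 2) = E.val ((⟨x', hxE⟩ : E) ^ 3 +
      aeval ((⟨w, hwE⟩ : E) ^ (2 * n)) (dickA a) * ⟨x', hxE⟩ +
        aeval ((⟨w, hwE⟩ : E) ^ (2 * n)) (dickB b))
    rw [map_pow, map_add, map_add, map_mul, map_pow, ← aeval_algHom_apply,
      ← aeval_algHom_apply, map_pow]
    exact heq

theorem dickson_embed {O K : Type} [Field O] [Field K] [Algebra O K] {n : ℕ}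
    {a b : O[X]} (ha : a.natDegree ≤ 2) (hb : b.natDegree ≤ 3) {x y v : K}
    (h : IsDickson O n a b x y v) :
    ∃ (E : Type) (_ : Field E) (_ : Algebra O E) (_ : K →ₐ[O] E) (x' y' w : E),
      IsModel O (2 * n) (dickA a) (dickB b) x' y' w :=
  dickson_embed_aux (IsScalarTower.toAlgHom O K (AlgebraicClosure K)) ha hb h

end Pool.Agent.Helper9.CHI
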