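import Mathlib
import Pool.Agent.Helper9.CHI.Tors
import Pool.Agent.Helper9.CHI.Mini
import Pool.Agent.Helper40.CX.CHI.Eqn
import Pool.Agent.Helper98.CHI.Wei
import Pool.Agent.Helper43.CH.Model

/-!
# `HasVoisinChi` for `y ^ 2 = x ^ 3 + A(w ^ m) x + B(w ^ m)`
-/

set_option autoImplicit false

namespace Pool.Agent.Helper9.CHI

open IntermediateField CX CX.VC CX.Pool.Agent.Helper21.TO CX.BC CX.CHI Polynomial
open CX.Pool.Agent.Helper51.EW (Wei)
open Pool.Agent.Helper43.CH (IsModel)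

section torsor

variable {O L E M : Type} [Field O] [Field L] [Field E] [Field M]
  [Algebra O L] [Algebra O E] [Algebra L E] [IsScalarTower O L E]
  [Algebra O M] {W : Wei O}

/-- The function form for all `n`, one field. -/
theorem voisinChi_all [IsAlgClosed O] [Good O] {m : ℕ} (hm : m ≠ 0) (hmO : (m : O) ≠ 0)
    (h1 : 1 ≤ W.N)
    (hj : ∀ c d : O, (c ≠ 0 ∨ d ≠ 0) →
      MvPolynomial.C c * W.A ^ 3 ≠ MvPolynomial.C d * W.B ^ 2)
    (hΔ : 4 * W.A ^ 3 + 27 * W.B ^ 2 ≠ 0) (hW : Minimal (pull W m)) (T : Torsor W L E) {w : L}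
    (hw : w ^ m = T.t) (f : M →ₐ[O] E)
    (hf : ∀ z, ∀ σ ∈ T.G, σ (algebraMap L E w) = algebraMap L E w → σ (f z) = f z)
    {σ₀ : E ≃ₐ[O] E} (hσ₀ : σ₀ ∈ T.G) {γ : O} (hγ : IsPrimitiveRoot γ m)
    (hσw : σ₀ (algebraMap L E w) = algebraMap O E γ⁻¹ * algebraMap L E w) (s : M ≃ₐ[O] M)
    (hs : ∀ z, f (s z) = σ₀ (f z)) (Ω : Type) [Field Ω] [Algebra O Ω] [IsAlgClosed Ω]
    [Good Ω] :
    ∃ (F : Type) (_ : Field F) (_ : Algebra Ω F) (i : M →+* F) (σ : F ≃ₐ[Ω] F),
      IsConst O Ω M F i ∧ (∀ z, σ (i z) = i (s z)) ∧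
      ∀ (N : ℕ) (ξ : Fin N → F) (g : Matrix (Fin N) (Fin N) Ω), ξ ≠ 0 →
        (∀ j, σ (ξ j) = ∑ l, algebraMap Ω F (g j l) * ξ l) →
        ∀ r : (proj Ω (van Ω ξ)).Pt → (proj Ω (van Ω ξ)).Pt, IsLin g r →
          ∀ n, W.N + 1 ≤ n → ∀ χ : ℂ, χ ≠ 1 → VoisinChi (proj Ω (van Ω ξ)) r χ n := by
  have hg : IsPrimitiveRoot (algebraMap O Ω γ) m := hγ.map_of_injective (algebraMap O Ω).injective
  refine voisinChi_tors hm hΔ hW T hw f hf hσ₀ hσw s hs Ω hg.pow_eq_one fun n hn χ hχ => ?_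
  have hmΩ : (m : Ω) ≠ 0 := by
    intro h
    apply hmO
    apply (algebraMap O Ω).injective
    rw [map_natCast, h, map_zero]
  exact voisinChi_wei (W := bcW W Ω) hm hmΩ hg h1 hn (hj_bc hj) hχ

theorem hasVoisinChi_tors [IsAlgClosed O] [Good O] {m : ℕ} (hm : m ≠ 0) (hmO : (m : O) ≠ 0)
    (h1 : W.N = 1)
    (hj : ∀ c d : O, (c ≠ 0 ∨ d ≠ 0) →
      MvPolynomial.C c * W.A ^ 3 ≠ MvPolynomial.C d * W.B ^ 2)
    (hΔ : 4 * W.A ^ 3 + 27 * W.B ^ 2 ≠ 0) (hW : Minimal (pull W m)) (T : Torsor W L E) {w : L}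
    (hw : w ^ m = T.t) (f : M →ₐ[O] E)
    (hf : ∀ z, ∀ σ ∈ T.G, σ (algebraMap L E w) = algebraMap L E w → σ (f z) = f z)
    {σ₀ : E ≃ₐ[O] E} (hσ₀ : σ₀ ∈ T.G) {γ : O} (hγ : IsPrimitiveRoot γ m)
    (hσw : σ₀ (algebraMap L E w) = algebraMap O E γ⁻¹ * algebraMap L E w) (s : M ≃ₐ[O] M)
    (hs : ∀ z, f (s z) = σ₀ (f z)) (hsm : s ^ m = 1) : HasVoisinChi O M s m := by
  refine hasVoisinChi_of hsm hm fun Ω _ _ _ _ => ?_
  obtain ⟨F, _, _, i, σ, hi, hσ, H⟩ := voisinChi_all hm hmO h1.ge hj hΔ hW T hw f hf hσ₀ hγ hσw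
    s hs Ω
  exact ⟨F, inferInstance, inferInstance, i, σ, hi, hσ, fun N ξ g hξ hg r hr χ _ hχ =>
    H N ξ g hξ hg r hr 2 (by omega) χ hχ⟩

end torsor

/-! ### Binary forms -/

section forms

variable {O : Type} [Field O]

/-- The binary form of degree `n`. -/
noncomputable def form (n : ℕ) (A : O[X]) : MvPolynomial (Fin 2) O :=
  ∑ i ∈ Finset.range (n + 1),
    MvPolynomial.C (A.coeff i) * (MvPolynomial.X 0 ^ (n - i) * MvPolynomial.X 1 ^ i)

theorem form_hom (n : ℕ) (A : O[X]) : (form n A).IsHomogeneous n := by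
  refine MvPolynomial.IsHomogeneous.sum _ _ _ fun i hi => ?_
  have hi' : i ≤ n := Nat.lt_succ_iff.mp (Finset.mem_range.mp hi)
  have h1 := (MvPolynomial.isHomogeneous_X O (0 : Fin 2)).pow (n - i)
  have h2 := (MvPolynomial.isHomogeneous_X O (1 : Fin 2)).pow i
  have h3 := (MvPolynomial.isHomogeneous_C (Fin 2) (A.coeff i)).mul (h1.mul h2)
  rwa [show 0 + (1 * (n - i) + 1 * i) = n by omega] at h3

theorem aeval_form {n : ℕ} {A : O[X]} (hA : A.natDegree ≤ n) {R : Type} [CommRing R] [Algebra O R]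
    (t : R) : MvPolynomial.aeval ![1, t] (form n A) = aeval t A := by
  unfold form
  rw [map_sum, aeval_eq_sum_range' (Nat.lt_succ_of_le hA)]
  refine Finset.sum_congr rfl fun i _ => ?_
  rw [map_mul, map_mul, map_pow, map_pow, MvPolynomial.aeval_X, MvPolynomial.aeval_X,
    MvPolynomial.algHom_C]
  simp [Algebra.smul_def]

theorem eval_form_zero (n : ℕ) (A : O[X]) :
    MvPolynomial.eval ![1, 0] (form n A) = A.coeff 0 := by
  unfold form
  rw [map_sum, Finset.sum_eq_single 0]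
  · simp
  · intro i _ hi
    simp [zero_pow hi]
  · intro h
    simp at h

theorem eval_form_inf (n : ℕ) (A : O[X]) :
    MvPolynomial.eval ![0, 1] (form n A) = A.coeff n := by
  unfold form
  rw [map_sum, Finset.sum_eq_single n]
  · simp
  · intro i hi hin
    have : n - i ≠ 0 := by
      have := Finset.mem_range.mp hi
      omega
    simp [zero_pow this]
  · intro h
    simp at h

/-- The Weierstrass equation. -/
noncomputable def wei (A B : O[X]) : Wei O where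
  N := 1
  A := form 4 A
  B := form 6 B
  hA := form_hom 4 A
  hB := form_hom 6 B

theorem wei_hj {A B : O[X]} (hA : A.natDegree ≤ 4) (hB : B.natDegree ≤ 6)
    (hj : ∀ c d : O, C c * A ^ 3 = C d * B ^ 2 → c = 0 ∧ d = 0) (c d : O) (hcd : c ≠ 0 ∨ d ≠ 0) :
    MvPolynomial.C c * (wei A B).A ^ 3 ≠ MvPolynomial.C d * (wei A B).B ^ 2 := by
  intro h
  have h1 := congrArg (MvPolynomial.aeval ![1, (X : O[X])]) h
  rw [map_mul, map_mul, map_pow _ (wei A B).A, map_pow _ (wei A B).B, MvPolynomial.algHom_C,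
    MvPolynomial.algHom_C] at h1
  have eA : MvPolynomial.aeval ![1, (X : O[X])] (wei A B).A = A := by
    have := aeval_form hA (X : O[X])
    rwa [aeval_X_left_apply] at this
  have eB : MvPolynomial.aeval ![1, (X : O[X])] (wei A B).B = B := by
    have := aeval_form hB (X : O[X])
    rwa [aeval_X_left_apply] at this
  rw [eA, eB] at h1
  obtain ⟨hc, hd⟩ := hj c d h1
  rcases hcd with h | h
  · exact h hc
  · exact h hd

theorem wei_disc [Good O] {A B : O[X]} (hA : A.natDegree ≤ 4) (hB : B.natDegree ≤ 6)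
    (hj : ∀ c d : O, C c * A ^ 3 = C d * B ^ 2 → c = 0 ∧ d = 0) :
    4 * (wei A B).A ^ 3 + 27 * (wei A B).B ^ 2 ≠ 0 := by
  intro h
  have h4 : (4 : O) ≠ 0 := by
    have : (2 : O) ≠ 0 := Good.two
    have e : (4 : O) = 2 * 2 := by norm_num
    rw [e]
    exact mul_ne_zero this this
  apply wei_hj hA hB hj 4 (-27) (Or.inl h4)
  have e1 : (MvPolynomial.C (4 : O) : MvPolynomial (Fin 2) O) = 4 := map_ofNat _ _
  have e2 : (MvPolynomial.C (-27 : O) : MvPolynomial (Fin 2) O) = -27 := by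
    rw [map_neg, map_ofNat]
  rw [e1, e2]
  linear_combination h

end forms

/-- **Theorem.** Voisin's property for the nontrivial characters of the automorphism
`w ↦ ζ w` of `y ^ 2 = x ^ 3 + A(w ^ m) x + B(w ^ m)`, `deg A ≤ 4`, `deg B ≤ 6`, if the `j`-invariant
is not constant and the fibres of `y ^ 2 = x ^ 3 + A(u) x + B(u)` over `u = 0` and `u = ∞` are
smooth or nodal. -/
theorem hasVoisinChi_model {O M : Type} [Field O] [IsAlgClosed O] [Good O] [Field M] [Algebra O M]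
    {m : ℕ} (hm : (m : O) ≠ 0) {A B : O[X]} {x y w : M} (h : IsModel O m A B x y w)
    (hA : A.natDegree ≤ 4) (hB : B.natDegree ≤ 6)
    (hj : ∀ c d : O, C c * A ^ 3 = C d * B ^ 2 → c = 0 ∧ d = 0)
    (h0 : A.coeff 0 ≠ 0 ∨ B.coeff 0 ≠ 0) (h1 : A.coeff 4 ≠ 0 ∨ B.coeff 6 ≠ 0)
    {ζ : O} (hζ : IsPrimitiveRoot ζ m) (s : M ≃ₐ[O] M) (hsx : s x = x) (hsy : s y = y)
    (hsw : s w = algebraMap O M ζ * w) : HasVoisinChi O M s m := by
  have hm0 : m ≠ 0 := by rintro rfl; exact hm Nat.cast_zero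
  have : Infinite O := IsAlgClosed.instInfinite
  have hsm : s ^ m = 1 := by
    have hpx : ∀ n : ℕ, (s ^ n) x = x := by
      intro n
      induction n with
      | zero => rfl
      | succ n ih =>
        have e : (s ^ (n + 1)) x = (s ^ n) (s x) := by rw [pow_succ]; rfl
        rw [e, hsx, ih]
    have hpy : ∀ n : ℕ, (s ^ n) y = y := by
      intro n
      induction n with
      | zero => rfl
      | succ n ih =>
        have e : (s ^ (n + 1)) y = (s ^ n) (s y) := by rw [pow_succ]; rfl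
        rw [e, hsy, ih]
    have hpw : ∀ n : ℕ, (s ^ n) w = algebraMap O M (ζ ^ n) * w := by
      intro n
      induction n with
      | zero => rw [pow_zero, pow_zero, map_one, one_mul]; rfl
      | succ n ih =>
        have e : (s ^ (n + 1)) w = (s ^ n) (s w) := by rw [pow_succ]; rfl
        rw [e, hsw, map_mul, AlgEquiv.commutes, ih, pow_succ, map_mul]
        ring
    apply AlgEquiv.ext
    intro z
    change (s ^ m) z = z
    have hz : z ∈ adjoin O {x, y, w} := by rw [h.gen]; trivial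
    induction hz using adjoin_induction with
    | mem z hz =>
      rcases hz with rfl | rfl | hz
      · exact hpx m
      · exact hpy m
      · rw [Set.mem_singleton_iff] at hz
        rw [hz, hpw, hζ.pow_eq_one, map_one, one_mul]
    | algebraMap c => rw [AlgEquiv.commutes]
    | add a b _ _ ha hb => rw [map_add, ha, hb]
    | inv a _ ha => rw [map_inv₀, ha]
    | mul a b _ _ ha hb => rw [map_mul, ha, hb]
  have heq : y ^ 2 = x ^ 3 + MvPolynomial.aeval ![1, w ^ m] (wei A B).A * x +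
      MvPolynomial.aeval ![1, w ^ m] (wei A B).B := by
    have eA : MvPolynomial.aeval ![1, w ^ m] (wei A B).A = aeval (w ^ m) A := aeval_form hA _
    have eB : MvPolynomial.aeval ![1, w ^ m] (wei A B).B = aeval (w ^ m) B := aeval_form hB _
    rw [eA, eB]
    exact h.eqn
  obtain ⟨L, E, _, _, _, _, _, _, T, w0, f, σ₀, hw0, hf, hσ₀, hσw, hs⟩ :=
    triv_data hm (wei_disc hA hB hj) h.ind heq h.gen hζ.pow_eq_one s hsx hsy hsw
  have hmin : Minimal (pull (wei A B) m) := minimal_pull rfl (wei_hj hA hB hj)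
    (by
      have e1 := eval_form_zero 4 A
      have e2 := eval_form_zero 6 B
      change MvPolynomial.eval ![1, 0] (form 4 A) ≠ 0 ∨ MvPolynomial.eval ![1, 0] (form 6 B) ≠ 0
      rwa [e1, e2])
    (by
      have e1 := eval_form_inf 4 A
      have e2 := eval_form_inf 6 B
      change MvPolynomial.eval ![0, 1] (form 4 A) ≠ 0 ∨ MvPolynomial.eval ![0, 1] (form 6 B) ≠ 0
      rwa [e1, e2]) hm
  have hγ : IsPrimitiveRoot ζ⁻¹ m := hζ.inv
  exact hasVoisinChi_tors hm0 hm rfl (wei_hj hA hB hj) (wei_disc hA hB hj) hmin T hw0 f hf hσ₀ hγ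
    (by rw [inv_inv]; exact hσw) s hs hsm

end Pool.Agent.Helper9.CHI
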